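import Pool.Agent.TH142.E2.Lens

/-!
# T5: a vertical line meets the curve `Im (z h'(z)) = 0` at most once
-/

set_option autoImplicit false

noncomputable section

open MeasureTheory Filter Topology
open scoped BigOperators Matrix ENNReal

namespace Pool.Agent.TH142.E2

namespace T5aux

theorem aa_re (α : ℝ) : (aa α).re = Real.cos α := by
  unfold aa
  exact Complex.exp_ofReal_mul_I_re α

theorem aa_im (α : ℝ) : (aa α).im = Real.sin α := by
  unfold aa
  exact Complex.exp_ofReal_mul_I_im α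

theorem aa_add (α : ℝ) : aa α + starRingEnd ℂ (aa α) = ((2 * Real.cos α : ℝ) : ℂ) := by
  rw [Complex.add_conj, aa_re]

theorem aa_norm (α : ℝ) : ‖aa α‖ = 1 := by
  unfold aa
  exact Complex.norm_exp_ofReal_mul_I α

/-- the denominator -/
def DD (α w : ℝ) : ℂ := aa α * w + starRingEnd ℂ (aa α)

/-- the inverse of the Cayley transform -/
def ZZ (α w : ℝ) : ℂ := ((w : ℂ) - 1) / DD α w

theorem DD_re (α w : ℝ) : (DD α w).re = Real.cos α * (w + 1) := by
  unfold DD
  rw [Complex.add_re, Complex.re_mul_ofReal, Complex.conj_re, aa_re]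
  ring

theorem DD_im (α w : ℝ) : (DD α w).im = Real.sin α * (w - 1) := by
  unfold DD
  rw [Complex.add_im, Complex.im_mul_ofReal, Complex.conj_im, aa_im]
  ring

theorem DD_ne {α w : ℝ} (hc : 0 < Real.cos α) (hw : 0 < w) : DD α w ≠ 0 := by
  intro h
  have h1 := congrArg Complex.re h
  rw [DD_re, Complex.zero_re] at h1
  have := mul_pos hc (by linarith : 0 < w + 1)
  linarith

theorem DD_sq (α w : ℝ) : Complex.normSq (DD α w) = (w - 1) ^ 2 + 4 * w * Real.cos α ^ 2 := by
  rw [Complex.normSq_apply, DD_re, DD_im]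
  have := Real.sin_sq_add_cos_sq α
  linear_combination ((w - 1) ^ 2) * this

theorem ZZ_norm {α w : ℝ} (hc : 0 < Real.cos α) (hw : 0 < w) : ‖ZZ α w‖ < 1 := by
  have hD := norm_pos_iff.2 (DD_ne hc hw)
  unfold ZZ
  rw [norm_div, div_lt_one hD]
  have h1 : ‖(w : ℂ) - 1‖ ^ 2 < ‖DD α w‖ ^ 2 := by
    rw [← Complex.normSq_eq_norm_sq (DD α w), DD_sq]
    have e : (w : ℂ) - 1 = ((w - 1 : ℝ) : ℂ) := by push_cast; rfl
    rw [e, Complex.norm_real, Real.norm_eq_abs, sq_abs]
    have : 0 < 4 * w * Real.cos α ^ 2 := by positivity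
    linarith
  exact lt_of_pow_lt_pow_left₀ 2 hD.le h1

theorem cay_ZZ {α w : ℝ} (hc : 0 < Real.cos α) (hw : 0 < w) : cay α (ZZ α w) = w := by
  have hD := DD_ne hc hw
  have h2 : ((2 * Real.cos α : ℝ) : ℂ) ≠ 0 := by
    exact_mod_cast (by positivity : 2 * Real.cos α ≠ 0)
  have e1 : 1 + starRingEnd ℂ (aa α) * ZZ α w = ((2 * Real.cos α : ℝ) : ℂ) * w / DD α w := by
    rw [← aa_add, eq_div_iff hD]
    unfold ZZ
    rw [add_mul, mul_assoc, div_mul_cancel₀ _ hD]
    unfold DD
    ring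
  have e2 : 1 - aa α * ZZ α w = ((2 * Real.cos α : ℝ) : ℂ) / DD α w := by
    rw [← aa_add, eq_div_iff hD]
    unfold ZZ
    rw [sub_mul, mul_assoc, div_mul_cancel₀ _ hD]
    unfold DD
    ring
  unfold cay
  rw [e1, e2, div_div_div_cancel_right₀ hD, mul_div_cancel_left₀ _ h2]

theorem eq_ZZ {α : ℝ} (hc : 0 < Real.cos α) {z : ℂ} (hz : ‖z‖ < 1) {t : ℝ} (ht : 0 < t)
    (h : cay α z = t) : z = ZZ α t := by
  have h1 : 1 - aa α * z ≠ 0 := by
    intro h2
    have h3 : aa α * z = 1 := (sub_eq_zero.1 h2).symm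
    have h4 := congrArg norm h3
    rw [norm_mul, aa_norm, one_mul, norm_one] at h4
    linarith
  unfold cay at h
  rw [div_eq_iff h1] at h
  unfold ZZ
  rw [eq_div_iff (DD_ne hc ht)]
  unfold DD
  linear_combination h

theorem hasDeriv_ZZ {α w : ℝ} (hc : 0 < Real.cos α) (hw : 0 < w) :
    HasDerivAt (ZZ α) (((2 * Real.cos α : ℝ) : ℂ) / DD α w ^ 2) w := by
  have hD := DD_ne hc hw
  have h1 : HasDerivAt (fun w : ℝ => (w : ℂ) - 1) 1 w :=
    (Complex.ofRealCLM.hasDerivAt (x := w)).sub_const 1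
  have h2 : HasDerivAt (fun w : ℝ => DD α w) (aa α) w := by
    unfold DD
    have h3 := ((Complex.ofRealCLM.hasDerivAt (x := w)).const_mul (aa α)).add_const
      (starRingEnd ℂ (aa α))
    simpa using h3
  have h4 := h1.div h2 hD
  have e : (((2 * Real.cos α : ℝ) : ℂ) / DD α w ^ 2) =
      (1 * DD α w - ((w : ℂ) - 1) * aa α) / DD α w ^ 2 := by
    rw [← aa_add]
    unfold DD
    ring
  rw [e]
  exact h4

end T5aux

open T5aux

theorem T5 (h1 : S_T1) (h3 : S_T3) : S_T5 := by
  intro α hα z w hz hw az aw hre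
  have hα' := abs_lt.1 hα
  have hc : 0 < Real.cos α := Real.cos_pos_of_mem_Ioo ⟨by linarith [hα'.1], hα'.2⟩
  have hcc : 0 < cc α := by
    unfold cc
    apply one_div_pos.2
    exact mul_pos (by linarith [hα'.2]) (by linarith [hα'.1])
  obtain ⟨hd, -, -, -, had0, -⟩ := h1 α hα
  obtain ⟨hlog, -, -, hslit, -⟩ := h3 α hα
  have key : ∀ z : ℂ, ‖z‖ < 1 → (cay α z).arg = 0 →
      0 < (cay α z).re ∧ z = ZZ α (cay α z).re := by
    intro z hz h
    obtain ⟨h4, h5⟩ := Complex.arg_eq_zero_iff.1 h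
    have h6 : 0 < (cay α z).re := by
      rcases h4.eq_or_lt with h7 | h7
      · exfalso
        have h8 : cay α z = 0 := Complex.ext h7.symm h5
        have h9 := hslit z hz
        rw [h8] at h9
        exact Complex.zero_notMem_slitPlane h9
      · exact h7
    refine ⟨h6, eq_ZZ hc hz h6 ?_⟩
    exact Complex.ext rfl h5
  have hX : ∀ t : ℝ, 0 < t → HasDerivAt (fun t : ℝ => (ah α (ZZ α t)).re)
      (ad α (ZZ α t) * (((2 * Real.cos α : ℝ) : ℂ) / DD α t ^ 2)).re t := by
    intro t ht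
    have h4 := (hd (ZZ α t) (ZZ_norm hc ht)).comp t (hasDeriv_ZZ hc ht)
    exact (Complex.reCLM.hasFDerivAt.comp_hasDerivAt t h4)
  have hpos : ∀ t : ℝ, 0 < t →
      0 < (ad α (ZZ α t) * (((2 * Real.cos α : ℝ) : ℂ) / DD α t ^ 2)).re := by
    intro t ht
    have hD := DD_ne hc ht
    by_cases ht1 : t = 1
    · subst ht1
      have e1 : ZZ α 1 = 0 := by
        unfold ZZ
        simp
      have e2 : DD α 1 = ((2 * Real.cos α : ℝ) : ℂ) := by
        rw [← aa_add]
        unfold DD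
        push_cast
        ring
      have h2c : ((2 * Real.cos α : ℝ) : ℂ) ≠ 0 := by
        exact_mod_cast (by positivity : 2 * Real.cos α ≠ 0)
      have e3 : ad α (ZZ α 1) * (((2 * Real.cos α : ℝ) : ℂ) / DD α 1 ^ 2) = (cc α : ℂ) := by
        rw [e1, had0, e2, pow_two, div_mul_cancel_left₀ h2c, Complex.ofReal_mul (2 * Real.cos α)]
        rw [mul_right_comm, mul_inv_cancel₀ h2c, one_mul]
      rw [e3, Complex.ofReal_re]
      exact hcc
    · have ht1' : (t : ℂ) - 1 ≠ 0 := by
        intro h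
        apply ht1
        have := sub_eq_zero.1 h
        exact_mod_cast this
      have hl := hlog (ZZ α t) (ZZ_norm hc ht)
      rw [cay_ZZ hc ht, ← Complex.ofReal_log ht.le] at hl
      have hZ0 : ZZ α t ≠ 0 := div_ne_zero ht1' hD
      have e1 : ad α (ZZ α t) * (((2 * Real.cos α : ℝ) : ℂ) / DD α t ^ 2) =
          ((cc α * (Real.log t / (t - 1)) * (2 * Real.cos α) : ℝ) : ℂ) * (DD α t)⁻¹ := by
        have e2 : ad α (ZZ α t) = (cc α : ℂ) * (Real.log t : ℂ) / ZZ α t := by
          rw [eq_div_iff hZ0, mul_comm]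
          exact hl
        rw [e2]
        unfold ZZ
        push_cast
        field_simp
      rw [e1, Complex.re_ofReal_mul, Complex.inv_re, DD_re]
      have h5 : 0 < Real.log t / (t - 1) := by
        rcases lt_or_gt_of_ne ht1 with h6 | h6
        · exact div_pos_of_neg_of_neg (Real.log_neg ht h6) (by linarith)
        · exact div_pos (Real.log_pos h6) (by linarith)
      have h6 : 0 < Complex.normSq (DD α t) := Complex.normSq_pos.2 hD
      have h7 : 0 < t + 1 := by linarith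
      positivity
  have hmono : StrictMonoOn (fun t : ℝ => (ah α (ZZ α t)).re) (Set.Ioi 0) := by
    apply strictMonoOn_of_deriv_pos (convex_Ioi 0)
    · intro t ht
      exact (hX t ht).continuousAt.continuousWithinAt
    · intro t ht
      rw [interior_Ioi] at ht
      rw [(hX t ht).deriv]
      exact hpos t ht
  obtain ⟨pz, ez⟩ := key z hz az
  obtain ⟨pw, ew⟩ := key w hw aw
  have h8 : (cay α z).re = (cay α w).re := by
    apply hmono.injOn pz pw
    show (ah α (ZZ α (cay α z).re)).re = (ah α (ZZ α (cay α w).re)).re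
    rw [← ez, ← ew]
    exact hre
  rw [ez, ew, h8]

end Pool.Agent.TH142.E2
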